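import Mathlib
import Pool.Agent.H51.DG

/-! # Moments of order at most `g - 1` do not determine discrete Gaussians in odd dimension `g` -/

namespace Pool.Agent.Results.MP_e16cda_ag.OrderAtLeastG

open Pool.Agent.H51.DG

/-- moments up to order `d` determine discrete Gaussians in dimension `g` -/
def Determine (g d : ℕ) : Prop :=
  ∀ (u u' : Fin g → ℂ) (B B' : Matrix (Fin g) (Fin g) ℂ), Siegel B → Siegel B' →
    theta u B ≠ 0 → theta u' B' ≠ 0 →
    (∀ α : Fin g → ℕ, ∑ i, α i ≤ d → moment α u B = moment α u' B') →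
    ∀ n : Fin g → ℤ, wt u B n = wt u' B' n

theorem result (k d : ℕ) (hd : Determine (2 * k + 1) d) : 2 * k + 1 ≤ d := by
  by_contra hlt
  obtain ⟨B, u, u', hB, h1, h2, h3, n, hn⟩ := main (even_two_mul k)
  exact hn (hd u u' B B hB hB h1 h2 (fun α hα => h3 α (by omega)) n)

end Pool.Agent.Results.MP_e16cda_ag.OrderAtLeastG
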